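import Pool.Agent.U337.EM.Stm

/-!
# Project EM, package B (helper324 for helper337): homogeneous components of a polynomial
automorphism and a submodule of vector fields
-/

set_option autoImplicit false

open MvPolynomial

namespace Pool.Agent.U324.EM

open Pool.Agent.U337.EM

noncomputable section

variable {F : Type} [Field F] {d : ℕ}

/-- the grading homomorphism `X_i ↦ t X_i` -/
def T : Sy F d →ₐ[F] Polynomial (Sy F d) :=
  aeval (fun i => Polynomial.C (X i) * Polynomial.X)

theorem T_monomial (s : Fin d →₀ ℕ) (a : F) :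
    T (monomial s a) = Polynomial.C (monomial s a) * Polynomial.X ^ s.degree := by
  unfold T
  rw [aeval_monomial, monomial_eq]
  have h1 : (s.prod fun i k => (Polynomial.C (X i : Sy F d) * Polynomial.X) ^ k) =
      (s.prod fun i k => Polynomial.C (X i : Sy F d) ^ k) * s.prod fun _ k => Polynomial.X ^ k := by
    rw [← Finsupp.prod_mul]
    simp only [mul_pow]
  have h2 : (s.prod fun _ k => (Polynomial.X : Polynomial (Sy F d)) ^ k) =
      Polynomial.X ^ s.degree := by
    unfold Finsupp.prod
    rw [Finset.prod_pow_eq_pow_sum]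
    rfl
  have h3 : Polynomial.C (s.prod fun i k => (X i : Sy F d) ^ k) =
      s.prod fun i k => Polynomial.C (X i : Sy F d) ^ k := by
    rw [map_finsuppProd]
    simp only [map_pow]
  rw [h1, h2, map_mul, h3, ← mul_assoc]
  rfl

theorem T_coeff (p : Sy F d) (j : ℕ) : (T p).coeff j = homogeneousComponent j p := by
  induction p using MvPolynomial.induction_on' with
  | monomial s a =>
    rw [T_monomial, Polynomial.coeff_C_mul_X_pow,
      homogeneousComponent_of_mem (isHomogeneous_monomial a rfl)]
  | add p q hp hq => rw [map_add, Polynomial.coeff_add, hp, hq, map_add]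

/-- scaling by `c` -/
def sc (c : F) : Sy F d →ₐ[F] Sy F d := aeval (fun l => C c * X l)

theorem sc_eq (c : F) (p : Sy F d) : sc c p = (T p).eval (C c) := by
  have h : (sc c : Sy F d →ₐ[F] Sy F d) =
      ((Polynomial.aeval (C c : Sy F d)).restrictScalars F).comp T := by
    apply MvPolynomial.algHom_ext
    intro i
    change aeval (fun l => C c * X l) (X i) =
      Polynomial.aeval (C c : Sy F d) (aeval (fun i => Polynomial.C (X i) * Polynomial.X) (X i))
    rw [aeval_X, aeval_X, map_mul, Polynomial.aeval_C, Polynomial.aeval_X, mul_comm]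
    rfl
  rw [h]
  change Polynomial.aeval (C c : Sy F d) (T p) = _
  rw [Polynomial.coe_aeval_eq_eval]

theorem sc_sum (c : F) (p : Sy F d) {N : ℕ} (hN : (T p).natDegree < N) :
    sc c p = ∑ j ∈ Finset.range N, c ^ j • homogeneousComponent j p := by
  rw [sc_eq, Polynomial.eval_eq_sum_range' hN]
  refine Finset.sum_congr rfl fun j _ => ?_
  rw [T_coeff, ← map_pow, mul_comm, smul_eq_C_mul]

/-- chain rule -/
theorem chain (f : Fin d → Sy F d) (k : Fin d) (p : Sy F d) :
    pderiv k (aeval f p) = ∑ l, aeval f (pderiv l p) * pderiv k (f l) := by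
  induction p using MvPolynomial.induction_on with
  | C a => simp [algebraMap_eq]
  | add p q hp hq =>
    simp only [map_add, hp, hq, add_mul, Finset.sum_add_distrib]
  | mul_X p i hp =>
    rw [map_mul, aeval_X, pderiv_mul, hp]
    have h1 : ∀ l, aeval f (pderiv l (p * X i)) * pderiv k (f l) =
        (aeval f (pderiv l p) * pderiv k (f l)) * f i +
          (if l = i then aeval f p * pderiv k (f l) else 0) := by
      intro l
      rw [pderiv_mul, map_add, map_mul, map_mul, aeval_X, pderiv_X]
      by_cases h : l = i
      · subst h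
        rw [Pi.single_eq_same, if_pos rfl, map_one]
        ring
      · rw [Pi.single_eq_of_ne (fun h' => h h'.symm), if_neg h, map_zero]
        ring
    rw [Finset.sum_congr rfl fun l _ => h1 l, Finset.sum_add_distrib, ← Finset.sum_mul,
      Finset.sum_ite_eq' Finset.univ i fun l => aeval f p * pderiv k (f l), if_pos (Finset.mem_univ i)]

theorem hc_pderiv (k : Fin d) (p : Sy F d) (n : ℕ) :
    homogeneousComponent n (pderiv k p) = pderiv k (homogeneousComponent (n + 1) p) := by
  conv_lhs => rw [← sum_homogeneousComponent p]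
  rw [map_sum, map_sum]
  have h1 : ∀ i, homogeneousComponent n (pderiv k (homogeneousComponent i p)) =
      if i = n + 1 then pderiv k (homogeneousComponent i p) else 0 := by
    intro i
    rcases i with _ | i
    · rw [homogeneousComponent_zero, pderiv_C, map_zero, if_neg (by omega)]
    · have h2 : (pderiv k (homogeneousComponent (i + 1) p)).IsHomogeneous i := by
        have := (homogeneousComponent_isHomogeneous (i + 1) p).pderiv (i := k)
        exact this
      rw [homogeneousComponent_of_mem h2]
      by_cases h : n = i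
      · rw [if_pos h, if_pos (by omega)]
      · rw [if_neg h, if_neg (by omega)]
  rw [Finset.sum_congr rfl fun i _ => h1 i,
    Finset.sum_ite_eq' _ (n + 1) fun i => pderiv k (homogeneousComponent i p)]
  split_ifs with h
  · rfl
  · rw [homogeneousComponent_eq_zero]
    · rw [map_zero]
    · rw [Finset.mem_range] at h
      omega

theorem euler (p : Sy F d) (n : ℕ) :
    ∑ k, homogeneousComponent n (pderiv k p) * X k =
      ((n : F) + 1) • homogeneousComponent (n + 1) p := by
  have h := (homogeneousComponent_isHomogeneous (n + 1) p).sum_X_mul_pderiv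
  have h2 : ((n : F) + 1) • homogeneousComponent (n + 1) p =
      (n + 1) • homogeneousComponent (n + 1) p := by
    rw [← Nat.cast_smul_eq_nsmul F]
    push_cast
    rfl
  rw [h2, ← h]
  refine Finset.sum_congr rfl fun k _ => ?_
  rw [hc_pderiv, mul_comm]

/-- polynomials with values in a subspace at all natural numbers -/
theorem vander [CharZero F] {M : Type} [AddCommGroup M] [Module F M] (V : Submodule F M)
    (u : ℕ → M) (w : M) (N : ℕ)
    (h : ∀ n : ℕ, ∑ j ∈ Finset.range N, (n : F) ^ j • u j - w ∈ V) {j : ℕ} (hj : 1 ≤ j)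
    (hjN : j < N) : u j ∈ V := by
  rw [← Submodule.Quotient.mk_eq_zero, ← Module.forall_dual_apply_eq_zero_iff F]
  intro φ
  set P : Polynomial F := ∑ i ∈ Finset.range N,
    Polynomial.C (φ (Submodule.Quotient.mk (u i))) * Polynomial.X ^ i -
      Polynomial.C (φ (Submodule.Quotient.mk w)) with hP
  have h1 : ∀ n : ℕ, P.eval (n : F) = 0 := by
    intro n
    have h2 := congrArg φ ((Submodule.Quotient.mk_eq_zero V).2 (h n))
    rw [map_zero, Submodule.Quotient.mk_sub, map_sub, ← Submodule.mkQ_apply V (∑ j ∈ _, _),
      map_sum, map_sum] at h2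
    rw [hP, Polynomial.eval_sub, Polynomial.eval_finsetSum, Polynomial.eval_C, ← h2]
    congr 1
    refine Finset.sum_congr rfl fun i _ => ?_
    rw [map_smul, map_smul, Polynomial.eval_mul, Polynomial.eval_C, Polynomial.eval_pow,
      Polynomial.eval_X, smul_eq_mul, mul_comm]
    rfl
  have h3 : P = 0 := by
    apply Polynomial.eq_zero_of_infinite_isRoot
    refine Set.Infinite.mono ?_ (Set.infinite_range_of_injective (Nat.cast_injective (R := F)))
    rintro _ ⟨n, rfl⟩
    exact h1 n
  have h4 := congrArg (fun q : Polynomial F => q.coeff j) h3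
  simp only [hP, Polynomial.coeff_sub, Polynomial.finsetSum_coeff, Polynomial.coeff_C_mul_X_pow,
    Polynomial.coeff_zero] at h4
  rw [Polynomial.coeff_C_of_ne_zero (by omega), sub_zero, Finset.sum_ite_eq, if_pos
    (Finset.mem_range.2 hjN)] at h4
  exact h4

theorem map_mul_one {R S : Type} [CommRing R] [CommRing S] [Algebra F R] [Algebra F S]
    (φ : R →ₐ[F] S) {A B : Matrix (Fin d) (Fin d) R} (h : A * B = 1) :
    A.map φ * B.map φ = 1 := by
  have h1 : (A * B).map φ = A.map φ * B.map φ := by
    ext1 i j
    simp only [Matrix.map_apply, Matrix.mul_apply, map_sum, map_mul]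
  rw [← h1, h, Matrix.map_one φ (map_zero φ) (map_one φ)]

/-- coefficients of a product with a graded matrix -/
theorem cmv (A : Matrix (Fin d) (Fin d) (Sy F d)) (y : Fin d → Polynomial (Sy F d)) (j : ℕ) :
    (fun i => ((A.map T).mulVec y i).coeff j) =
      ∑ x ∈ Finset.HasAntidiagonal.antidiagonal j,
        (A.map (homogeneousComponent x.1)).mulVec (fun l => (y l).coeff x.2) := by
  funext i
  rw [Finset.sum_apply]
  simp only [Matrix.mulVec, dotProduct, Matrix.map_apply]
  rw [Polynomial.finsetSum_coeff, Finset.sum_comm]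
  refine Finset.sum_congr rfl fun l _ => ?_
  rw [Polynomial.coeff_mul]
  refine Finset.sum_congr rfl fun x _ => ?_
  rw [T_coeff]

theorem t_B : S_B := by
  intro F _ _ d f f' hf0 hf'0 hff' hf'f V hV
  classical
  set G : Matrix (Fin d) (Fin d) (Sy F d) := Matrix.of fun i k => pderiv k (f i) with hG
  set E : Matrix (Fin d) (Fin d) (Sy F d) := Matrix.of fun i l => aeval f (pderiv l (f' i)) with hE
  have hEG : E * G = 1 := by
    ext1 i k
    rw [Matrix.mul_apply, Matrix.one_apply]
    have h := chain f k (f' i)
    rw [hff', pderiv_X] at h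
    simp only [hE, hG, Matrix.of_apply]
    rw [← h]
    by_cases hik : i = k
    · subst hik
      rw [Pi.single_eq_same, if_pos rfl]
    · rw [if_neg hik, Pi.single_eq_of_ne hik]
  have hGE : G * E = 1 := mul_eq_one_comm.1 hEG
  -- step 1
  set N : ℕ := (∑ i, ∑ l, (T (E i l)).natDegree) + 1 with hN
  have hNil : ∀ i l, (T (E i l)).natDegree < N := by
    intro i l
    have h1 : (T (E i l)).natDegree ≤ ∑ l, (T (E i l)).natDegree :=
      Finset.single_le_sum (f := fun l => (T (E i l)).natDegree) (fun _ _ => Nat.zero_le _)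
        (Finset.mem_univ l)
    have h2 : ∑ l, (T (E i l)).natDegree ≤ ∑ i, ∑ l, (T (E i l)).natDegree :=
      Finset.single_le_sum (f := fun i => ∑ l, (T (E i l)).natDegree) (fun _ _ => Nat.zero_le _)
        (Finset.mem_univ i)
    omega
  have hsc : ∀ c : F, (G.map (sc c)) * (E.map (sc c)) = 1 := by
    intro c
    exact map_mul_one (sc c) hGE
  have hstep : ∀ (c : F) (v : Fin d → Sy F d),
      (E.map (sc c)).mulVec v - (E.map (sc (c + 1))).mulVec v ∈ V := by
    intro c v
    apply hV (fun l => C c * X l) ((E.map (sc c)).mulVec v)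
    have hx : (fun l : Fin d => C c * X l + X l) = fun l => (C (c + 1) * X l : Sy F d) := by
      funext l
      rw [map_add, map_one]
      ring
    rw [hx]
    have h1 : (G.map (sc (c + 1))).mulVec
        ((E.map (sc c)).mulVec v - (E.map (sc (c + 1))).mulVec v) =
        (G.map (sc (c + 1)) - G.map (sc c)).mulVec ((E.map (sc c)).mulVec v) := by
      have e1 : ∀ c : F, (G.map (sc c)).mulVec ((E.map (sc c)).mulVec v) = v := by
        intro c
        rw [Matrix.mulVec_mulVec, hsc, Matrix.one_mulVec]
      rw [Matrix.mulVec_sub, Matrix.sub_mulVec, e1, e1]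
    intro i
    exact congrFun h1 i
  have hdiff : ∀ (n : ℕ) (v : Fin d → Sy F d),
      (E.map (sc (n : F))).mulVec v - (E.map (sc (0 : F))).mulVec v ∈ V := by
    intro n v
    induction n with
    | zero => simp
    | succ n ih =>
      have h1 := V.sub_mem ih (hstep n v)
      have h2 : (E.map (sc (n : F))).mulVec v - (E.map (sc (0 : F))).mulVec v -
          ((E.map (sc (n : F))).mulVec v - (E.map (sc ((n : F) + 1))).mulVec v) =
          (E.map (sc ((n + 1 : ℕ) : F))).mulVec v - (E.map (sc (0 : F))).mulVec v := by
        push_cast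
        abel
      rwa [h2] at h1
  have hexp : ∀ (c : F) (v : Fin d → Sy F d), (E.map (sc c)).mulVec v =
      ∑ j ∈ Finset.range N, c ^ j • (E.map (homogeneousComponent j)).mulVec v := by
    intro c v
    funext i
    rw [Finset.sum_apply]
    simp only [Matrix.mulVec, dotProduct, Matrix.map_apply, Pi.smul_apply]
    rw [Finset.sum_congr rfl fun l _ => by rw [sc_sum c (E i l) (hNil i l), Finset.sum_mul],
      Finset.sum_comm]
    refine Finset.sum_congr rfl fun j _ => ?_
    rw [Finset.smul_sum]
    refine Finset.sum_congr rfl fun l _ => ?_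
    rw [smul_mul_assoc]
  have hEj : ∀ (j : ℕ), 1 ≤ j → ∀ v : Fin d → Sy F d,
      (E.map (homogeneousComponent j)).mulVec v ∈ V := by
    intro j hj v
    by_cases hjN : j < N
    · refine vander (V.restrictScalars F) (fun j => (E.map (homogeneousComponent j)).mulVec v)
        ((E.map (sc (0 : F))).mulVec v) N ?_ hj hjN
      intro n
      have h1 := hdiff n v
      rw [hexp (n : F) v] at h1
      exact h1
    · have h0 : E.map (homogeneousComponent j) = 0 := by
        ext1 i l
        rw [Matrix.map_apply, ← T_coeff, Polynomial.coeff_eq_zero_of_natDegree_lt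
          ((hNil i l).trans_le (not_lt.1 hjN))]
        rfl
      rw [h0, Matrix.zero_mulVec]
      exact V.zero_mem
  -- matrices over `S[t]`
  have hEGT : (E.map T) * (G.map T) = 1 := by
    exact map_mul_one T hEG
  have hGET : (G.map T) * (E.map T) = 1 := by
    exact map_mul_one T hGE
  -- step 2
  have hsmul : ∀ (A : Matrix (Fin d) (Fin d) (Sy F d)) (c : F) (v : Fin d → Sy F d),
      A.mulVec (c • v) = c • A.mulVec v := fun A c v => Matrix.mulVec_smul A c v
  have hunit : ∀ (q : ℕ) (w : Fin d → Sy F d), ((q : F) + 1) • w ∈ V → w ∈ V := by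
    intro q w hw
    have h1 : ((q : F) + 1) ≠ 0 := by exact_mod_cast Nat.succ_ne_zero q
    have h2 := (V.restrictScalars F).smul_mem ((q : F) + 1)⁻¹ hw
    rw [smul_smul, inv_mul_cancel₀ h1, one_smul] at h2
    exact h2
  have hE0 : ∀ k, 1 ≤ k → (E.map (homogeneousComponent 0)).mulVec
      (fun l => homogeneousComponent (k + 1) (f l)) ∈ V := by
    intro k hk
    set ψ : Fin d → Polynomial (Sy F d) := (G.map T).mulVec (fun l => Polynomial.C (X l)) with hψ
    have h1 : ∀ q, (fun l => (ψ l).coeff q) =
        ((q : F) + 1) • fun l => homogeneousComponent (q + 1) (f l) := by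
      intro q
      funext l
      rw [hψ, Pi.smul_apply, ← euler]
      simp only [Matrix.mulVec, dotProduct, Matrix.map_apply, Polynomial.finsetSum_coeff,
        Polynomial.coeff_mul_C, T_coeff]
      rfl
    have h2 : (E.map T).mulVec ψ = fun l => Polynomial.C (X l) := by
      rw [hψ, Matrix.mulVec_mulVec, hEGT, Matrix.one_mulVec]
    have h3 := cmv E ψ k
    rw [h2] at h3
    have h4 : (fun i : Fin d => (Polynomial.C (X i : Sy F d)).coeff k) = 0 := by
      funext i
      rw [Polynomial.coeff_C_of_ne_zero (by omega)]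
      rfl
    rw [h4] at h3
    have h5 : (0, k) ∈ Finset.HasAntidiagonal.antidiagonal k := by simp
    rw [← Finset.add_sum_erase _ _ h5] at h3
    have h6 : ∑ x ∈ (Finset.HasAntidiagonal.antidiagonal k).erase (0, k),
        (E.map (homogeneousComponent x.1)).mulVec (fun l => (ψ l).coeff x.2) ∈ V := by
      refine V.sum_mem fun x hx => hEj x.1 ?_ _
      rw [Finset.mem_erase, Finset.HasAntidiagonal.mem_antidiagonal] at hx
      by_contra h7
      apply hx.1
      apply Prod.ext
      · change x.1 = 0
        omega
      · change x.2 = k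
        omega
    have h7 : (E.map (homogeneousComponent 0)).mulVec (fun l => (ψ l).coeff k) ∈ V := by
      have h8 := V.neg_mem h6
      rwa [← eq_neg_of_add_eq_zero_left h3.symm] at h8
    rw [h1, hsmul] at h7
    exact hunit k _ h7
  -- step 3
  set φ : Fin d → Polynomial (Sy F d) :=
    fun i => Polynomial.derivative (Polynomial.divX (T (f i))) with hφ
  have hφc : ∀ j, (fun l => (φ l).coeff j) =
      ((j : F) + 1) • fun l => homogeneousComponent (j + 2) (f l) := by
    intro j
    funext l
    rw [hφ, Pi.smul_apply]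
    simp only [Polynomial.coeff_derivative, Polynomial.coeff_divX, T_coeff]
    rw [smul_eq_C_mul, mul_comm, map_add, map_one, map_natCast]
  set Yt : Fin d → Polynomial (Sy F d) := (E.map T).mulVec φ with hYt
  refine ⟨(∑ k, (Yt k).natDegree) + 1, fun a k => (Yt k).coeff a, ?_, ?_, ?_⟩
  · intro j
    have h1 := cmv E φ j
    change (fun k => (Yt k).coeff j) ∈ V
    rw [hYt, h1]
    refine V.sum_mem fun x hx => ?_
    by_cases h2 : 1 ≤ x.1
    · exact hEj x.1 h2 _
    · have h3 : x.1 = 0 := by omega
      rw [h3, hφc, hsmul]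
      exact (V.restrictScalars F).smul_mem _ (hE0 (x.2 + 1) (by omega))
  · intro j hj
    funext k
    have h1 : (Yt k).natDegree ≤ ∑ k, (Yt k).natDegree :=
      Finset.single_le_sum (f := fun k => (Yt k).natDegree) (fun _ _ => Nat.zero_le _)
        (Finset.mem_univ k)
    exact Polynomial.coeff_eq_zero_of_natDegree_lt (by omega)
  · intro i j
    have h1 : (G.map T).mulVec Yt = φ := by
      rw [hYt, Matrix.mulVec_mulVec, hGET, Matrix.one_mulVec]
    have h2 := congrFun (cmv G Yt j) i
    rw [h1] at h2
    have h3 := congrFun (hφc j) i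
    rw [h3, Pi.smul_apply, Finset.sum_apply] at h2
    rw [h2, ← Finset.Nat.sum_antidiagonal_swap,
      Finset.Nat.sum_antidiagonal_eq_sum_range_succ_mk]
    refine Finset.sum_congr rfl fun a _ => ?_
    simp only [Matrix.mulVec, dotProduct, Matrix.map_apply, Prod.swap]
    refine Finset.sum_congr rfl fun k _ => ?_
    rw [hG, Matrix.of_apply, hc_pderiv, mul_comm]

end

end Pool.Agent.U324.EM
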